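import Pool.Agent.MP_bd94e8_al.H83A.Kit
import Pool.Agent.MP_bd94e8_al.H83.Count

/-!
The test for the separated quiver.
-/

set_option autoImplicit false
set_option linter.unusedSectionVars false

namespace Pool.Agent.MP_bd94e8_al.H83A

open Module Function Finset H83 H83.H H89

namespace SepQA

variable {C : Type} [CommRing C] [IsArtinianRing C]

theorem abs {Y X M W : Type} [AddCommGroup Y] [Module C Y] [AddCommGroup X] [Module C X]
    [AddCommGroup M] [Module C M] [AddCommGroup W] [Module C W] [Module.Finite C X]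
    [Module.Finite C W] {k : ℕ} (q : Y →ₗ[C] X) (hq : Surjective q) (m : Fin k → (Y →ₗ[C] M))
    (hm : ∀ i, LinearMap.ker q ≤ LinearMap.ker (m i)) (x : Y) (hx : q x ≠ 0)
    (hx' : ∀ i, m i x = 0) (ι : W →ₗ[C] M) (hι : Injective ι)
    (h : ∀ w, sgl C M C (ι w) ∈ LinearMap.range (gm m)) : len C W < len C X := by
  choose n hn using fun i => exists_desc hq (m i) (hm i)
  have e : ∀ y, gm m y = gm n (H.map q y) := fun y => by
    simp only [gm_apply, H.map_map, hn]
  have h1 : LinearMap.range (H.map ι) ≤ LinearMap.range (gm n) := by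
    rintro _ ⟨y, rfl⟩
    refine mem_of_cf (A := C) ⊤ ((LinearMap.range (gm n)).comap (H.map ι)) (fun w _ => ?_) y
      fun _ => trivial
    obtain ⟨z, hz⟩ := h w
    exact ⟨_, by rw [← e, hz, map_sgl (A' := C)]⟩
  have h2 : length C W ≤ length (K C) (LinearMap.range (gm n)) := by
    rw [← len_eq, (LinearEquiv.ofInjective _ (map_inj hι)).length_eq]
    exact len_mono h1
  have h3 : Nontrivial (LinearMap.ker (gm n)) := by
    refine Submodule.nontrivial_iff_ne_bot.2 fun e0 => hx ?_
    have h4 : sgl C X C (q x) ∈ LinearMap.ker (gm n) := by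
      rw [LinearMap.mem_ker, ← map_sgl (A := C), ← e, gm_apply]
      refine sum_eq_zero fun i _ => ?_
      rw [map_sgl (A' := C), hx', map_zero, smul_zero]
    rw [e0, Submodule.mem_bot] at h4
    simpa [cf_sgl] using congrArg (fun z => cf z 0) h4
  have h5 := len_ker_range (gm n)
  have h6 := len_pos (R := K C) (U := LinearMap.ker (gm n))
  rw [len_eq, ← len_cast, ← len_cast, ← len_cast] at h5
  rw [← len_cast, ← len_cast] at h2
  norm_cast at h2 h5
  omega

theorem exists_pi {T M : Type} [Fintype T] [AddCommGroup M] [Module C M] (y : T → H C M) :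
    ∃ z : H C (T → M), ∀ g a, z.cf g a = (y a).cf g := by
  classical
  refine ⟨∑ a, H.map (LinearMap.single C (fun _ => M) a) (y a), fun g a => ?_⟩
  simp [Pi.single_apply]

theorem exists_prod {M M' : Type} [AddCommGroup M] [Module C M] [AddCommGroup M'] [Module C M']
    (y : H C M) (y' : H C M') : ∃ z : H C (M × M'), ∀ g, z.cf g = (y.cf g, y'.cf g) :=
  ⟨H.map (LinearMap.inl C M M') y + H.map (LinearMap.inr C M M') y', fun g => by simp⟩

variable {A : Type} [Ring A] [Algebra C A] [Module.Finite C A] {T₁ T₀ : Type} [Fintype T₁]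
  [Fintype T₀]

/-- Right multiplication by a matrix. -/
def rm (w : T₁ → T₀ → A) : (T₁ → A) →ₗ[A] (T₀ → A) where
  toFun x b := ∑ a, x a * w a b
  map_add' x y := by ext; simp [add_mul, sum_add_distrib]
  map_smul' c x := by ext; simp [mul_sum, mul_assoc]

variable (C) in
/-- The tangent map of the action on matrices. -/
def tg (w : T₁ → T₀ → A) : (T₁ → T₁ → A) × (T₀ → T₀ → A) →ₗ[C] (T₁ → T₀ → A) where
  toFun x a b := ∑ a', x.1 a a' * w a' b + ∑ b', w a b' * x.2 b' b
  map_add' x y := by
    ext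
    simp only [Prod.fst_add, Prod.snd_add, Pi.add_apply, add_mul, mul_add, sum_add_distrib]
    abel
  map_smul' c x := by ext; simp [smul_sum]

theorem key (hc : ConnA C A) {k : ℕ} (w : Fin k → T₁ → T₀ → A) (j : Fin k) :
    sgl C _ C (w j) ∈ LinearMap.range (gm fun i => tg C (w i)) := by
  classical
  set η := gm fun i => (rm (w i)).restrictScalars C with hη
  have hA : ∀ (a : A) y, η (a • y) = a • η y := fun a y => by
    rw [gm_apply, gm_apply, smul_sum]
    exact sum_congr rfl fun j _ => by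
      rw [smul_comm a]; congr 1; ext; simp
  have hW : ∀ (a : A), ∀ x ∈ LinearMap.range η, a • x ∈ LinearMap.range η := by
    rintro a _ ⟨y, rfl⟩
    exact ⟨_, hA a y⟩
  let N := Quo _ hW
  let π : H C (T₀ → A) →ₗ[K C] N := Quo.mk _ hW
  have hs : ∀ (a : A) x, π (a • x) = a • π x := Quo.smul_mk _ hW
  have hπ : ∀ {x}, π x = 0 ↔ x ∈ LinearMap.range η := Quo.mk_eq_zero _ hW
  obtain ⟨D, hD⟩ := hc N (ne_top_of_le_ne_top length_ne_top
    (length_le_of_surjective π (Quo.surj _ hW))) j
  choose β hβ using fun b => Quo.surj _ hW (-D (π (sgl C _ A (Pi.single b (1 : A)))))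
  replace hβ : ∀ b, π (β b) = -D (π (sgl C _ A (Pi.single b (1 : A)))) := hβ
  have h1 : ∀ x : T₀ → A, π (∑ b, x b • β b) = -D (π (sgl C _ A x)) := fun x => by
    have : x = ∑ b, x b • Pi.single b (1 : A) := by
      ext b; simp [Pi.single_apply]
    conv_rhs => rw [this]
    simp only [map_sum, map_smul, hs, hβ, smul_neg, sum_neg_distrib]
  have h2 : ∀ a, tv C j • sgl C _ A (w j a) - ∑ i : Fin k, tv C i • ∑ b, w i a b • β b ∈
      LinearMap.range η := fun a => by
    have i1 : η (sgl C _ A (Pi.single a (1 : A))) = ∑ i : Fin k, tv C i • sgl C _ A (w i a) := by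
      simp only [hη, gm_apply, map_sgl (A' := A)]
      refine sum_congr rfl fun i _ => ?_
      congr 2
      ext b
      simp [rm, Pi.single_apply]
    have e := congrArg D (hπ.2 ⟨sgl C _ A (Pi.single a (1 : A)), rfl⟩)
    rw [i1, map_sum, map_sum, map_zero] at e
    simp only [map_smul, hD, thK_tv, sum_add_distrib, ite_smul, zero_smul, Fin.val_inj,
      sum_ite_eq, mem_univ, if_true] at e
    rw [← hπ, map_sub, map_sum]
    simp only [map_smul, h1, smul_neg, sum_neg_distrib, sub_neg_eq_add]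
    exact e
  choose α hα using h2
  obtain ⟨α', hα'⟩ := exists_pi α
  obtain ⟨β', hβ'⟩ := exists_pi β
  obtain ⟨y, hy⟩ := exists_prod α' β'
  refine (Submodule.smul_mem_iff_of_isUnit _ (tv_unit j)).1 ⟨y, H.ext fun g => funext fun a => ?_⟩
  have h3 : H.map (LinearMap.proj a) (gm (fun i => tg C (w i)) y) =
      H.map (LinearMap.proj (R := C) (φ := fun _ : T₁ => T₀ → A) a) (tv C j • sgl C _ C (w j)) := by
    rw [map_smul, map_sgl (A' := A), gm_apply, map_sum]
    refine Eq.trans ?_ (eq_sub_iff_add_eq.1 (hα a))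
    rw [hη, gm_apply, ← sum_add_distrib]
    refine sum_congr rfl fun i _ => ?_
    rw [map_smul, ← smul_add]
    congr 1
    ext g b
    simp [tg, rm, hy, hα', hβ']
  exact congrArg (fun z => cf z g) h3

variable (C) in
/-- The class of the corner component. -/
def sw (u v : A) (hu : IsIdempotentElem u) (hv : IsIdempotentElem v) (R : Submodule C A) :
    A →ₗ[C] (cn u v (⊤ : Submodule C A)).map R.mkQ :=
  (R.mkQ ∘ₗ LinearMap.mulRight C v ∘ₗ LinearMap.mulLeft C u).codRestrict _ fun x =>
    ⟨u * x * v, ⟨trivial, cn_cn hu hv x⟩, rfl⟩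

omit [Module.Finite C A] in
theorem sw_zero {u v : A} (hu : IsIdempotentElem u) (hv : IsIdempotentElem v) (R : Submodule C A)
    (x : A) : sw C u v hu hv R x = 0 ↔ u * x * v ∈ R := by
  rw [← Submodule.Quotient.mk_eq_zero, Subtype.ext_iff]; rfl

omit [Module.Finite C A] in
theorem sw_surj {u v : A} (hu : IsIdempotentElem u) (hv : IsIdempotentElem v)
    (R : Submodule C A) : Surjective (sw C u v hu hv R) := by
  rintro ⟨_, x, hx, rfl⟩
  exact ⟨x, Subtype.ext (congrArg R.mkQ hx.2)⟩

theorem len_pi2 {S T : Type} [Fintype S] [Fintype T] (X : S → T → Type)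
    [∀ a b, AddCommGroup (X a b)] [∀ a b, Module C (X a b)] [∀ a b, Module.Finite C (X a b)] :
    len C (∀ a b, X a b) = ∑ a, ∑ b, len C (X a b) := by
  have : (len C (∀ a b, X a b) : ℕ∞) = ∑ a, ∑ b, (len C (X a b) : ℕ∞) := by
    simp only [len_cast, length_pi_of_fintype]
  exact_mod_cast this

theorem len_prod2 (X Y : Type) [AddCommGroup X] [Module C X] [AddCommGroup Y] [Module C Y]
    [Module.Finite C X] [Module.Finite C Y] : len C (X × Y) = len C X + len C Y := by
  have : (len C (X × Y) : ℕ∞) = len C X + len C Y := by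
    simp only [len_cast, length_prod]
  exact_mod_cast this

end SepQA

open SepQA in
theorem sSepQ : SSepQ := by
  intro C A _ _ _ _ _ hc T₁ T₀ _ _ u v R W W₂ hu hv h1 h2 h3
  classical
  obtain ⟨k, w, hw⟩ := Module.Finite.exists_fin (R := C) (M := ∀ a b, cn (u a) (v b) W)
  let w' : Fin k → T₁ → T₀ → A := fun i a b => w i a b
  let s : (T₁ → T₀ → A) →ₗ[C] (T₁ → T₀ → A ⧸ W₂) := LinearMap.pi fun a => LinearMap.pi fun b =>
    W₂.mkQ ∘ₗ LinearMap.mulRight C (v b) ∘ₗ LinearMap.mulLeft C (u a) ∘ₗ LinearMap.proj b ∘ₗ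
      LinearMap.proj a
  have hs : ∀ x a b, s x a b = W₂.mkQ (u a * x a b * v b) := fun _ _ _ => rfl
  let q₁ : (T₁ → T₁ → A) →ₗ[C] ∀ a a', (cn (u a) (u a') (⊤ : Submodule C A)).map R.mkQ :=
    LinearMap.pi fun a => LinearMap.pi fun a' =>
      sw C _ _ (hu a) (hu a') R ∘ₗ LinearMap.proj a' ∘ₗ LinearMap.proj a
  let q₀ : (T₀ → T₀ → A) →ₗ[C] ∀ b b', (cn (v b) (v b') (⊤ : Submodule C A)).map R.mkQ :=
    LinearMap.pi fun b => LinearMap.pi fun b' =>
      sw C _ _ (hv b) (hv b') R ∘ₗ LinearMap.proj b' ∘ₗ LinearMap.proj b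
  let ι : (∀ a b, (cn (u a) (v b) W).map W₂.mkQ) →ₗ[C] (T₁ → T₀ → A ⧸ W₂) :=
    LinearMap.pi fun a => LinearMap.pi fun b =>
      Submodule.subtype _ ∘ₗ LinearMap.proj b ∘ₗ LinearMap.proj a
  have H := SepQA.abs (q₁.prodMap q₀) ?_ (fun i => s ∘ₗ tg C (w' i)) ?_
    (fun a => Pi.single a 1, fun b => -Pi.single b 1) ?_ ?_ ι ?_ ?_
  · rwa [len_prod2, len_pi2, len_pi2, len_pi2] at H
  · rintro ⟨x, y⟩
    choose x' hx' using fun a a' => sw_surj (hu a) (hu a') R (x a a')
    choose y' hy' using fun b b' => sw_surj (hv b) (hv b') R (y b b')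
    exact ⟨(x', y'), Prod.ext (funext fun a => funext (hx' a)) (funext fun b => funext (hy' b))⟩
  · rintro i ⟨x, y⟩ hx
    have e1 : ∀ a a', u a * x a a' * u a' ∈ R := fun a a' =>
      (sw_zero (hu a) (hu a') R _).1 (congrFun (congrFun (congrArg Prod.fst hx) a) a')
    have e0 : ∀ b b', v b * y b b' * v b' ∈ R := fun b b' =>
      (sw_zero (hv b) (hv b') R _).1 (congrFun (congrFun (congrArg Prod.snd hx) b) b')
    refine funext fun a => funext fun b => (Submodule.Quotient.mk_eq_zero _).2 ?_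
    change u a * (∑ a', x a a' * w' i a' b + ∑ b', w' i a b' * y b' b) * v b ∈ W₂
    rw [mul_add, add_mul, mul_sum, sum_mul, mul_sum, sum_mul]
    refine W₂.add_mem (W₂.sum_mem fun a' _ => ?_) (W₂.sum_mem fun b' _ => ?_)
    · have := h1 a a' b _ ⟨e1 a a', cn_cn (hu a) (hu a') _⟩ _ (w i a' b).2
      rwa [mul_assoc, cn_left (hu a') (w i a' b).2.2, ← cn_right (hv b) (w i a' b).2.2,
        ← mul_assoc, mul_assoc (u a)] at this
    · have := h2 a b' b _ (w i a b').2 _ ⟨e0 b' b, cn_cn (hv b') (hv b) _⟩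
      rwa [← mul_assoc, ← mul_assoc, cn_right (hv b') (w i a b').2.2,
        ← cn_left (hu a) (w i a b').2.2, mul_assoc (u a)] at this
  · intro hx
    rcases h3 with ⟨a, ha⟩ | ⟨b, hb⟩
    · have := (sw_zero (hu a) (hu a) R _).1 (congrFun (congrFun (congrArg Prod.fst hx) a) a)
      exact ha (by simpa [(hu a).eq] using this)
    · have := (sw_zero (hv b) (hv b) R _).1 (congrFun (congrFun (congrArg Prod.snd hx) b) b)
      exact hb (by simpa [(hv b).eq] using this)
  · intro i
    rw [LinearMap.comp_apply, ← map_zero s]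
    congr 1
    ext a b
    simp [tg, Pi.single_apply]
  · exact fun x y e => funext fun a => funext fun b => Subtype.ext (congrFun (congrFun e a) b)
  · intro x
    choose z hz hz' using fun a b => (x a b).2
    let t : (∀ a b, cn (u a) (v b) W) →ₗ[C] (T₁ → T₀ → A) :=
      LinearMap.pi fun a => LinearMap.pi fun b =>
        Submodule.subtype _ ∘ₗ LinearMap.proj b ∘ₗ LinearMap.proj a
    have e : ι x = s (t fun a b => ⟨z a b, hz a b⟩) := funext fun a => funext fun b => by
      rw [hs]
      exact (hz' a b).symm.trans (congrArg _ (hz a b).2.symm)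
    have hall : ∀ y, sgl C _ C (s (t y)) ∈ LinearMap.range (gm fun i => s ∘ₗ tg C (w' i)) := by
      intro y
      have hy : y ∈ Submodule.span C (Set.range w) := hw ▸ trivial
      induction hy using Submodule.span_induction with
      | mem _ h =>
        obtain ⟨j, rfl⟩ := h
        obtain ⟨y, hy⟩ := key hc w' j
        refine ⟨y, ?_⟩
        rw [← map_sgl (A := C), show t (w j) = w' j from rfl, ← hy, gm_apply, gm_apply, map_sum]
        simp only [map_smul, H.map_map]
      | zero => simp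
      | add _ _ _ _ a b => simpa only [map_add] using add_mem a b
      | smul c _ _ a =>
        simpa only [map_smul] using Submodule.smul_of_tower_mem _ c a
    rw [e]
    exact hall _

end Pool.Agent.MP_bd94e8_al.H83A
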